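import Mathlib

/-!
# Boxes in the space of sequences of natural numbers

The space `Y` is the set of all sequences of natural numbers with the topology generated by the
boxes `box t F`: all sequences that extend the finite sequence `t` and afterwards always satisfy
`F (initial part) ≤ next value`.
-/

set_option autoImplicit false
open Set Filter Topology

namespace Pool.Agent.helper67.Lav

/-- sequences of natural numbers -/
def Y : Type := ℕ → ℕ

/-- initial segment of length `n`, last value first -/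
def res (z : Y) : ℕ → List ℕ
  | 0 => []
  | n + 1 => z n :: res z n

theorem res_succ (z : Y) (n : ℕ) : res z (n + 1) = z n :: res z n := rfl

@[simp] theorem res_length (z : Y) (n : ℕ) : (res z n).length = n := by
  induction n with
  | zero => rfl
  | succ n ih => simp [res_succ, ih]

theorem res_eq_iff {z z' : Y} {n : ℕ} : res z n = res z' n ↔ ∀ i, i < n → z i = z' i := by
  induction n with
  | zero => simp [res]
  | succ n ih =>
    rw [res_succ, res_succ, List.cons.injEq, ih]
    constructor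
    · rintro ⟨h1, h2⟩ i hi
      rcases Nat.lt_succ_iff_lt_or_eq.1 hi with h | h
      · exact h2 i h
      · rw [h]; exact h1
    · intro h
      exact ⟨h n (Nat.lt_succ_self n), fun i hi => h i (Nat.lt_succ_of_lt hi)⟩

theorem mem_res {z : Y} {i n : ℕ} (h : i < n) : z i ∈ res z n := by
  induction n with
  | zero => omega
  | succ n ih =>
    rw [res_succ, List.mem_cons]
    rcases Nat.lt_succ_iff_lt_or_eq.1 h with h | h
    · exact Or.inr (ih h)
    · left; rw [h]

theorem res_eq_mono {z z' : Y} {n m : ℕ} (h : res z n = res z' n) (hm : m ≤ n) :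
    res z m = res z' m :=
  res_eq_iff.2 fun i hi => res_eq_iff.1 h i (lt_of_lt_of_le hi hm)

/-- from `n` on, `z` lies above `F` -/
def Ob (F : List ℕ → ℕ) (n : ℕ) (z : Y) : Prop := ∀ i, n ≤ i → F (res z i) ≤ z i

theorem Ob.mono {F F' : List ℕ → ℕ} {n n' : ℕ} {z : Y} (h : Ob F' n z) (hn : n ≤ n')
    (hF : ∀ s, F s ≤ F' s) : Ob F n' z :=
  fun i hi => (hF _).trans (h i (hn.trans hi))

/-- the basic open sets -/
def box (t : List ℕ) (F : List ℕ → ℕ) : Set Y := {z | res z t.length = t ∧ Ob F t.length z}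

theorem mem_box_res {z z' : Y} {n : ℕ} {F : List ℕ → ℕ} :
    z' ∈ box (res z n) F ↔ res z' n = res z n ∧ Ob F n z' := by
  simp [box]

theorem mem_box_self {z : Y} {n : ℕ} {F : List ℕ → ℕ} (h : Ob F n z) : z ∈ box (res z n) F :=
  mem_box_res.2 ⟨rfl, h⟩

theorem box_sub {z : Y} {n n' : ℕ} {F F' : List ℕ → ℕ} (h : n ≤ n') (hF : ∀ s, F s ≤ F' s)
    (hz : Ob F n z) : box (res z n') F' ⊆ box (res z n) F := by
  intro z' hz'
  rw [mem_box_res] at hz' ⊢
  obtain ⟨h1, h2⟩ := hz'
  refine ⟨res_eq_mono h1 h, fun i hi => ?_⟩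
  by_cases hi' : i < n'
  · have e1 : z' i = z i := res_eq_iff.1 h1 i hi'
    have e2 : res z' i = res z i := res_eq_mono h1 hi'.le
    rw [e1, e2]
    exact hz i hi
  · exact (hF _).trans (h2 i (not_lt.1 hi'))

theorem box_mono {t : List ℕ} {F F' : List ℕ → ℕ} (hF : ∀ s, F s ≤ F' s) :
    box t F' ⊆ box t F := fun _ hz => ⟨hz.1, hz.2.mono le_rfl hF⟩

instance : TopologicalSpace Y where
  IsOpen O := ∀ z ∈ O, ∃ n F, Ob F n z ∧ box (res z n) F ⊆ O
  isOpen_univ := fun z _ => ⟨0, fun _ => 0, fun _ _ => Nat.zero_le _, subset_univ _⟩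
  isOpen_inter := by
    rintro O O' hO hO' z ⟨hz, hz'⟩
    obtain ⟨n, F, h1, h2⟩ := hO z hz
    obtain ⟨n', F', h1', h2'⟩ := hO' z hz'
    refine ⟨max n n', fun s => max (F s) (F' s), ?_, subset_inter ?_ ?_⟩
    · intro i hi
      exact max_le (h1 i ((le_max_left _ _).trans hi)) (h1' i ((le_max_right _ _).trans hi))
    · exact (box_sub (le_max_left _ _) (fun s => le_max_left _ _) h1).trans h2
    · exact (box_sub (le_max_right _ _) (fun s => le_max_right _ _) h1').trans h2'
  isOpen_sUnion := by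
    rintro S hS z ⟨O, hO, hz⟩
    obtain ⟨n, F, h1, h2⟩ := hS O hO z hz
    exact ⟨n, F, h1, h2.trans (subset_sUnion_of_mem hO)⟩

theorem isOpen_iff {O : Set Y} :
    IsOpen O ↔ ∀ z ∈ O, ∃ n F, Ob F n z ∧ box (res z n) F ⊆ O := Iff.rfl

theorem isOpen_box (t : List ℕ) (F : List ℕ → ℕ) : IsOpen (box t F) := by
  rw [isOpen_iff]
  intro z hz
  refine ⟨t.length, F, hz.2, ?_⟩
  rw [hz.1]

theorem isClosed_box (t : List ℕ) (F : List ℕ → ℕ) : IsClosed (box t F) := by
  rw [← isOpen_compl_iff, isOpen_iff]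
  intro z hz
  by_cases h : res z t.length = t
  · have h2 : ¬ Ob F t.length z := fun h' => hz ⟨h, h'⟩
    unfold Ob at h2
    push Not at h2
    obtain ⟨i, hi, hi2⟩ := h2
    refine ⟨i + 1, fun _ => 0, fun _ _ => Nat.zero_le _, ?_⟩
    intro z' hz' hz2
    rw [mem_box_res] at hz'
    have e1 : z' i = z i := res_eq_iff.1 hz'.1 i (Nat.lt_succ_self i)
    have e2 : res z' i = res z i := res_eq_mono hz'.1 (Nat.le_succ i)
    have := hz2.2 i hi
    rw [e1, e2] at this
    omega
  · refine ⟨t.length, fun _ => 0, fun _ _ => Nat.zero_le _, ?_⟩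
    intro z' hz' hz2
    rw [mem_box_res] at hz'
    exact h (hz'.1.symm.trans hz2.1)

theorem isOpen_val (n k : ℕ) : IsOpen {z : Y | z n = k} := by
  rw [isOpen_iff]
  intro z hz
  refine ⟨n + 1, fun _ => 0, fun _ _ => Nat.zero_le _, ?_⟩
  intro z' hz'
  rw [mem_box_res] at hz'
  have e1 : z' n = z n := res_eq_iff.1 hz'.1 n (Nat.lt_succ_self n)
  exact e1.trans hz

theorem isOpen_le (n k : ℕ) : IsOpen {z : Y | z n ≤ k} := by
  rw [isOpen_iff]
  intro z hz
  refine ⟨n + 1, fun _ => 0, fun _ _ => Nat.zero_le _, ?_⟩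
  intro z' hz'
  rw [mem_box_res] at hz'
  have e1 : z' n = z n := res_eq_iff.1 hz'.1 n (Nat.lt_succ_self n)
  exact e1.trans_le hz

theorem mem_nhds_box {z : Y} {s : Set Y} (hs : s ∈ 𝓝 z) :
    ∃ n F, Ob F n z ∧ box (res z n) F ⊆ s := by
  obtain ⟨O, h1, h2, h3⟩ := mem_nhds_iff.1 hs
  obtain ⟨n, F, h4, h5⟩ := isOpen_iff.1 h2 z h3
  exact ⟨n, F, h4, h5.trans h1⟩

instance : RegularSpace Y := by
  refine .of_exists_mem_nhds_isClosed_subset fun z s hs => ?_
  obtain ⟨n, F, h1, h2⟩ := mem_nhds_box hs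
  exact ⟨box (res z n) F, (isOpen_box _ _).mem_nhds (mem_box_self h1), isClosed_box _ _, h2⟩

instance : T2Space Y := by
  refine ⟨fun z z' h => ?_⟩
  have : ∃ n, z n ≠ z' n := by
    by_contra hc
    push Not at hc
    exact h (funext hc)
  obtain ⟨n, hn⟩ := this
  refine ⟨{y | y n = z n}, {y | y n = z' n}, isOpen_val _ _, isOpen_val _ _, rfl, rfl, ?_⟩
  rw [Set.disjoint_left]
  intro y (hy : y n = z n) (hy' : y n = z' n)
  exact hn (hy.symm.trans hy')

instance : T3Space Y where

/-- `S` meets every box with stem `t` -/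
def PD (t : List ℕ) (S : Set Y) : Prop := ∀ F, (box t F ∩ S).Nonempty

theorem PD.mono {t : List ℕ} {S S' : Set Y} (h : PD t S) (hS : S ⊆ S') : PD t S' :=
  fun F => (h F).mono (inter_subset_inter_right _ hS)

/-- `S` is dense -/
def Dn (S : Set Y) : Prop := ∀ t, PD t S

theorem box_cons {k : ℕ} {t : List ℕ} {F : List ℕ → ℕ} (h : F t ≤ k) :
    box (k :: t) F ⊆ box t F := by
  intro z hz
  have h1 : res z (t.length + 1) = k :: t := hz.1
  rw [res_succ, List.cons.injEq] at h1
  refine ⟨h1.2, fun i hi => ?_⟩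
  rcases Nat.lt_or_eq_of_le hi with h' | h'
  · exact hz.2 i h'
  · rw [← h', h1.2, h1.1]; exact h

/-- every box is nonempty -/
theorem box_nonempty (t : List ℕ) (F : List ℕ → ℕ) : (box t F).Nonempty := by
  -- build the lists extending `t`
  let L : ℕ → List ℕ := fun n => Nat.rec t (fun _ s => F s :: s) n
  have hL0 : L 0 = t := rfl
  have hLs : ∀ n, L (n + 1) = F (L n) :: L n := fun n => rfl
  have hlen : ∀ n, (L n).length = t.length + n := by
    intro n
    induction n with
    | zero => rfl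
    | succ n ih => rw [hLs, List.length_cons, ih]; rfl
  let z : Y := fun i => if i < t.length then t.getD (t.length - 1 - i) 0
    else F (L (i - t.length))
  have hz1 : ∀ (s : List ℕ) (y : Y), (∀ i, i < s.length → y i = s.getD (s.length - 1 - i) 0) →
      res y s.length = s := by
    intro s
    induction s with
    | nil => intro y _; rfl
    | cons a s ih =>
      intro y hy
      rw [List.length_cons, res_succ, List.cons.injEq]
      refine ⟨?_, ih y fun i hi => ?_⟩
      · have := hy s.length (by simp)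
        rw [this]; simp
      · rw [hy i (by simp; omega)]
        have e : (a :: s).length - 1 - i = (s.length - 1 - i) + 1 := by simp; omega
        rw [e, List.getD_cons_succ]
  have hz : res z t.length = t := hz1 t z fun i hi => by simp only [z, if_pos hi]
  have hz2 : ∀ n, res z (t.length + n) = L n := by
    intro n
    induction n with
    | zero => exact hz
    | succ n ih =>
      rw [← Nat.add_assoc, res_succ, ih, hLs]
      congr 1
      simp only [z]
      rw [if_neg (by omega), Nat.add_sub_cancel_left]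
  refine ⟨z, hz, fun i hi => ?_⟩
  obtain ⟨n, rfl⟩ := Nat.exists_eq_add_of_le hi
  rw [hz2]
  simp only [z]
  rw [if_neg (by omega), Nat.add_sub_cancel_left]

theorem box_inter_nonempty (t : List ℕ) (F F' : List ℕ → ℕ) : (box t F ∩ box t F').Nonempty := by
  obtain ⟨z, hz⟩ := box_nonempty t (fun s => max (F s) (F' s))
  exact ⟨z, box_mono (fun s => le_max_left _ _) hz, box_mono (fun s => le_max_right _ _) hz⟩

theorem isOpen_ob (F : List ℕ → ℕ) : IsOpen {z : Y | ∃ m, Ob F m z} := by
  rw [isOpen_iff]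
  rintro z ⟨m, hm⟩
  refine ⟨m, F, hm, fun z' hz' => ⟨m, (mem_box_res.1 hz').2⟩⟩

theorem Dn_ob (F : List ℕ → ℕ) : Dn {z : Y | ∃ m, Ob F m z} := by
  intro t F'
  obtain ⟨z, hz, hz'⟩ := box_inter_nonempty t F' F
  exact ⟨z, hz, _, hz'.2⟩

end Pool.Agent.helper67.Lav
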