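import Pool.Agent.helper67.Lav.Play

/-!
# The continuum hypothesis gives a generic set
-/

set_option autoImplicit false
open Set Filter Topology

namespace Pool.Agent.helper67.Lav

/-- the countable objects that have to be taken care of -/
abbrev Info : Type := (List ℕ → Code) × (List ℕ → ℕ)

theorem mk_code : Cardinal.mk Code ≤ Cardinal.continuum := by
  have h1 : Cardinal.mk (List ℕ → ℕ) ≤ Cardinal.continuum := by
    rw [← Cardinal.power_def]
    simp
  have h2 : Cardinal.mk (Option (List ℕ × (List ℕ → ℕ))) ≤ Cardinal.continuum := by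
    rw [Cardinal.mk_option, Cardinal.mk_prod, Cardinal.lift_id, Cardinal.lift_id]
    have h3 : Cardinal.mk (List ℕ) * Cardinal.mk (List ℕ → ℕ) ≤ Cardinal.continuum := by
      calc Cardinal.mk (List ℕ) * Cardinal.mk (List ℕ → ℕ)
          ≤ Cardinal.continuum * Cardinal.continuum :=
            mul_le_mul' (Cardinal.mk_denumerable (List ℕ) ▸ Cardinal.aleph0_le_continuum) h1
        _ = Cardinal.continuum := Cardinal.continuum_mul_self
    calc Cardinal.mk (List ℕ) * Cardinal.mk (List ℕ → ℕ) + 1
        ≤ Cardinal.continuum + Cardinal.continuum :=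
          add_le_add h3 (Cardinal.one_lt_aleph0.le.trans Cardinal.aleph0_le_continuum)
      _ = Cardinal.continuum := Cardinal.continuum_add_self
  rw [← Cardinal.power_def]
  calc Cardinal.mk (Option (List ℕ × (List ℕ → ℕ))) ^ Cardinal.mk ℕ
      ≤ Cardinal.continuum ^ Cardinal.aleph0 := by
        rw [Cardinal.mk_nat]
        exact Cardinal.power_le_power_right h2
    _ = Cardinal.continuum := Cardinal.continuum_power_aleph0

theorem mk_info : Cardinal.mk Info ≤ Cardinal.continuum := by
  have h1 : Cardinal.mk (List ℕ → Code) ≤ Cardinal.continuum := by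
    rw [← Cardinal.power_def]
    calc Cardinal.mk Code ^ Cardinal.mk (List ℕ)
        ≤ Cardinal.continuum ^ Cardinal.aleph0 := by
          rw [Cardinal.mk_denumerable (List ℕ)]
          exact Cardinal.power_le_power_right mk_code
      _ = Cardinal.continuum := Cardinal.continuum_power_aleph0
  have h2 : Cardinal.mk (List ℕ → ℕ) ≤ Cardinal.continuum := by
    rw [← Cardinal.power_def]
    simp
  rw [Cardinal.mk_prod, Cardinal.lift_id, Cardinal.lift_id]
  calc Cardinal.mk (List ℕ → Code) * Cardinal.mk (List ℕ → ℕ)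
      ≤ Cardinal.continuum * Cardinal.continuum := mul_le_mul' h1 h2
    _ = Cardinal.continuum := Cardinal.continuum_mul_self

/-- a well-order with countable initial segments -/
theorem exists_wo (CH : Cardinal.continuum.{0} = Cardinal.aleph 1) :
    ∃ (r : Info → Info → Prop), IsWellOrder Info r ∧ ∀ i, {j | r j i}.Countable := by
  obtain ⟨r, wo, hr⟩ := Cardinal.exists_ord_eq Info
  refine ⟨r, wo, fun i => ?_⟩
  rw [← Cardinal.le_aleph0_iff_set_countable, ← Cardinal.lt_aleph_one_iff]
  have h1 : Ordinal.typein r i < (Cardinal.mk Info).ord := by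
    rw [hr]
    exact Ordinal.typein_lt_type r i
  rw [Cardinal.lt_ord] at h1
  have h2 : (Ordinal.typein r i).card = Cardinal.mk {j // r j i} := Ordinal.card_typein ..
  rw [h2] at h1
  exact lt_of_lt_of_le h1 (mk_info.trans CH.le)

open Classical in
/-- a dense open set determined by `c` and `E` -/
noncomputable def sel (c : List ℕ → Code) (E : Set Y) : Set Y :=
  if h : ∃ h, Dn (UB c h) ∧ E ⊆ UB c h then UB c h.choose else univ

theorem isOpen_UB (c : List ℕ → Code) (h : Y) : IsOpen (UB c h) := by
  have : UB c h = ⋃ n, KS (c (res h (n + 1))) := by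
    ext z; simp [UB]
  rw [this]
  exact isOpen_iUnion fun n => isOpen_KS _

theorem isOpen_sel (c : List ℕ → Code) (E : Set Y) : IsOpen (sel c E) := by
  unfold sel
  split_ifs
  · exact isOpen_UB _ _
  · exact isOpen_univ

theorem dn_sel (c : List ℕ → Code) (E : Set Y) : Dn (sel c E) := by
  unfold sel
  split_ifs with h
  · exact h.choose_spec.1
  · intro t F
    rw [inter_univ]
    exact box_nonempty t F

theorem exists_generic_set (CH : Cardinal.continuum.{0} = Cardinal.aleph 1) :
    ∃ A : Set Y, Lus A ∧ Dn A ∧ Gen A := by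
  obtain ⟨r, wo, hcount⟩ := exists_wo CH
  have hwf : WellFounded r := wo.wf
  have htrans : ∀ x y z, r x y → r y z → r x z := fun x y z h1 h2 => _root_.trans h1 h2
  -- the earlier points
  let X : (i : Info) → ((j : Info) → r j i → List ℕ → Y) → Info → Set Y := fun i a j =>
    {y | ∃ j' t, ∃ h : r j' i, r j' j ∧ y = a j' h t}
  let Q : (i : Info) → ((j : Info) → r j i → List ℕ → Y) → List ℕ → Y → Prop := fun i a t z =>
    z ∈ box t i.2 ∧ (∀ c, (r c i ∨ c = i) → ∃ m, Ob c.2 m z) ∧
      ∀ c, (r c i ∨ c = i) → ∀ j, (r j i ∨ j = i) → z ∈ sel c.1 (X i a j)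
  have hQ : ∀ i a t, ∃ z, Q i a t z := by
    intro i a t
    have hc : {c | r c i ∨ c = i}.Countable := by
      have : {c | r c i ∨ c = i} = {c | r c i} ∪ {i} := rfl
      rw [this]
      exact (hcount i).union (countable_singleton _)
    have : Countable {c | r c i ∨ c = i} := hc.to_subtype
    obtain ⟨z, hz, h2⟩ := exists_generic' t i.2
      (fun k : {c | r c i ∨ c = i} ⊕ ({c | r c i ∨ c = i} × {c | r c i ∨ c = i}) =>
        match k with
        | Sum.inl c => {z : Y | ∃ m, Ob c.1.2 m z}
        | Sum.inr p => sel p.1.1.1 (X i a p.2.1))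
      (by
        rintro (c | p)
        · exact isOpen_ob _
        · exact isOpen_sel _ _)
      (by
        rintro (c | p)
        · exact Dn_ob _
        · exact dn_sel _ _)
    exact ⟨z, hz, fun c hc => h2 (Sum.inl ⟨c, hc⟩),
      fun c hc j hj => h2 (Sum.inr (⟨c, hc⟩, ⟨j, hj⟩))⟩
  choose g hg using hQ
  let a : Info → List ℕ → Y := hwf.fix fun i a t => g i a t
  have ha : ∀ i t, a i t = g i (fun j _ => a j) t := by
    intro i t
    have := hwf.fix_eq (fun i a t => g i a t) i
    exact congrFun this t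
  have hX : ∀ i j, (r j i ∨ j = i) → X i (fun j _ => a j) j = {y | ∃ j' t, r j' j ∧ y = a j' t} := by
    intro i j hj
    ext y
    constructor
    · rintro ⟨j', t, h1, h2, h3⟩
      exact ⟨j', t, h2, h3⟩
    · rintro ⟨j', t, h2, h3⟩
      have h4 : r j' i := by
        rcases hj with hj | hj
        · exact htrans _ _ _ h2 hj
        · rw [← hj]; exact h2
      exact ⟨j', t, h4, h2, h3⟩
  have h1 : ∀ i t, a i t ∈ box t i.2 := fun i t => by
    rw [ha]; exact (hg i (fun j _ => a j) t).1
  have h2 : ∀ i t c, (r c i ∨ c = i) → ∃ m, Ob c.2 m (a i t) := fun i t c hc => by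
    rw [ha]; exact (hg i (fun j _ => a j) t).2.1 c hc
  have h3 : ∀ i t c, (r c i ∨ c = i) → ∀ j, (r j i ∨ j = i) →
      a i t ∈ sel c.1 {y | ∃ j' t, r j' j ∧ y = a j' t} := fun i t c hc j hj => by
    have := (hg i (fun j _ => a j) t).2.2 c hc j hj
    rw [hX i j hj, ← ha] at this
    exact this
  have hearly : ∀ i, {y | ∃ j t, r j i ∧ y = a j t}.Countable := by
    intro i
    have : {y | ∃ j t, r j i ∧ y = a j t} = ⋃ j ∈ {j | r j i}, range (a j) := by
      ext y
      simp only [mem_ofPred_eq, mem_iUnion, mem_range, exists_prop]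
      constructor
      · rintro ⟨j, t, h, rfl⟩; exact ⟨j, h, t, rfl⟩
      · rintro ⟨j, h, t, rfl⟩; exact ⟨j, t, h, rfl⟩
    rw [this]
    exact (hcount i).biUnion fun j _ => countable_range _
  have htri : ∀ i j, r j i ∨ (r i j ∨ i = j) := by
    intro i j
    rcases trichotomous_of r j i with h | h | h
    · exact Or.inl h
    · exact Or.inr (Or.inr h.symm)
    · exact Or.inr (Or.inl h)
  refine ⟨{y | ∃ i t, y = a i t}, ?_, ?_, ?_⟩
  · intro F
    let c : Info := (fun _ _ => none, F)
    refine (hearly c).mono ?_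
    rintro _ ⟨⟨i, t, rfl⟩, h4⟩
    rcases htri c i with h | h
    · exact ⟨i, t, h, rfl⟩
    · exact (h4 (h2 i t c h)).elim
  · intro t F
    let c : Info := (fun _ _ => none, F)
    exact ⟨a c t, h1 c t, c, t, rfl⟩
  · intro c0
    let c : Info := (c0, fun _ => 0)
    refine ⟨{y | ∃ j t, r j c ∧ y = a j t}, ?_, hearly c, ?_⟩
    · rintro _ ⟨j, t, -, rfl⟩
      exact ⟨j, t, rfl⟩
    · intro hex
      have hsel : sel c0 {y | ∃ j t, r j c ∧ y = a j t} = UB c0 hex.choose := by
        unfold sel
        rw [dif_pos hex]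
      refine ⟨hex.choose, ?_⟩
      rintro _ ⟨i, t, rfl⟩
      rcases htri c i with h | h
      · exact hex.choose_spec.2 ⟨i, t, h, rfl⟩
      · have := h3 i t c h c h
        rw [hsel] at this
        exact this

end Pool.Agent.helper67.Lav
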