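import Pool.Agent.helper67.Lav.Basic

/-!
# Generic points, the rank argument and the Lindelöf property
-/

set_option autoImplicit false
open Set Filter Topology

namespace Pool.Agent.helper67.Lav

theorem step_box {N : Set Y} (hN : IsOpen N) (hD : Dn N) (p : List ℕ × (List ℕ → ℕ)) :
    ∃ q : List ℕ × (List ℕ → ℕ), p.1.length < q.1.length ∧ box q.1 q.2 ⊆ box p.1 p.2 ∩ N := by
  obtain ⟨z, hz, hzN⟩ := hD p.1 p.2
  obtain ⟨n, F, h1, h2⟩ := isOpen_iff.1 hN z hzN
  refine ⟨(res z (max n (p.1.length + 1)), fun s => max (p.2 s) (F s)), ?_, subset_inter ?_ ?_⟩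
  · rw [res_length]
    exact lt_of_lt_of_le (Nat.lt_succ_self _) (le_max_right _ _)
  · have e : box p.1 p.2 = box (res z p.1.length) p.2 := by rw [hz.1]
    rw [e]
    exact box_sub ((Nat.le_succ _).trans (le_max_right _ _)) (fun s => le_max_left _ _) hz.2
  · exact (box_sub (le_max_left _ _) (fun s => le_max_right _ _) h1).trans h2

/-- a point in a box that lies in countably many dense open sets -/
theorem exists_generic (t : List ℕ) (F : List ℕ → ℕ) (N : ℕ → Set Y) (hN : ∀ k, IsOpen (N k))
    (hD : ∀ k, Dn (N k)) : ∃ z ∈ box t F, ∀ k, z ∈ N k := by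
  choose g hg1 hg2 using fun k p => step_box (hN k) (hD k) p
  let s : ℕ → List ℕ × (List ℕ → ℕ) := fun k => Nat.rec (t, F) (fun k p => g k p) k
  have hs0 : s 0 = (t, F) := rfl
  have hss : ∀ k, s (k + 1) = g k (s k) := fun k => rfl
  have hlen : ∀ k, k ≤ (s k).1.length := by
    intro k
    induction k with
    | zero => exact Nat.zero_le _
    | succ k ih => rw [hss]; exact Nat.succ_le_of_lt (lt_of_le_of_lt ih (hg1 k (s k)))
  have hsub : ∀ k l, k ≤ l → box (s l).1 (s l).2 ⊆ box (s k).1 (s k).2 := by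
    intro k l hkl
    induction l, hkl using Nat.le_induction with
    | base => exact Subset.rfl
    | succ l _ ih =>
      rw [hss]
      exact ((hg2 l (s l)).trans inter_subset_left).trans ih
  choose y hy using fun k => box_nonempty (s k).1 (s k).2
  have hag : ∀ k l, k ≤ l → res (y l) (s k).1.length = (s k).1 := fun k l hkl =>
    (hsub k l hkl (hy l)).1
  let z : Y := fun i => y (i + 1) i
  have hz : ∀ k l i, k ≤ l → i < (s k).1.length → z i = y l i := by
    intro k l i hkl hi
    rcases le_total (i + 1) l with h | h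
    · have h1 := hag (i + 1) l h
      have h2 := hag (i + 1) (i + 1) le_rfl
      exact (res_eq_iff.1 (h2.trans h1.symm)) i (lt_of_lt_of_le (Nat.lt_succ_self i) (hlen _))
    · have h1 := hag k l hkl
      have h2 := hag k (i + 1) (hkl.trans h)
      exact (res_eq_iff.1 (h2.trans h1.symm)) i hi
  have hzmem : ∀ k, z ∈ box (s k).1 (s k).2 := by
    intro k
    refine ⟨?_, fun i hi => ?_⟩
    · rw [← hag k k le_rfl, res_length]
      exact res_eq_iff.2 fun i hi => hz k k i le_rfl hi
    · have hk : k ≤ max k (i + 1) := le_max_left _ _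
      have hlt : i < (s (max k (i + 1))).1.length :=
        lt_of_lt_of_le (lt_of_lt_of_le (Nat.lt_succ_self i) (le_max_right _ _)) (hlen _)
      have e1 : z i = y (max k (i + 1)) i := hz _ _ i le_rfl hlt
      have e2 : res z i = res (y (max k (i + 1))) i :=
        res_eq_iff.2 fun j hj => hz _ _ j le_rfl (hj.trans hlt)
      rw [e1, e2]
      exact (hsub k _ hk (hy _)).2 i hi
  refine ⟨z, hzmem 0, fun k => ?_⟩
  have := hzmem (k + 1)
  rw [hss] at this
  exact (hg2 k (s k) this).2

theorem exists_generic' {ι : Type} [Countable ι] (t : List ℕ) (F : List ℕ → ℕ) (N : ι → Set Y)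
    (hN : ∀ k, IsOpen (N k)) (hD : ∀ k, Dn (N k)) : ∃ z ∈ box t F, ∀ k, z ∈ N k := by
  rcases isEmpty_or_nonempty ι with h | h
  · obtain ⟨z, hz⟩ := box_nonempty t F
    exact ⟨z, hz, fun k => (h.false k).elim⟩
  · obtain ⟨f, hf⟩ := exists_surjective_nat ι
    obtain ⟨z, hz, h2⟩ := exists_generic t F (fun n => N (f n)) (fun n => hN _) (fun n => hD _)
    refine ⟨z, hz, fun k => ?_⟩
    obtain ⟨n, rfl⟩ := hf k
    exact h2 n

/-- the rank argument -/
theorem rank_arg (G : Set (List ℕ)) (hG : ∀ t, {k | (k :: t) ∈ G}.Infinite → t ∈ G) (t : List ℕ)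
    (ht : t ∉ G) : ∃ F, ∀ z ∈ box t F, ∀ i, t.length ≤ i → res z i ∉ G := by
  have h1 : ∀ s : List ℕ, ∃ b : ℕ, s ∉ G → ∀ k, (k :: s) ∈ G → k < b := by
    intro s
    by_cases hs : s ∈ G
    · exact ⟨0, fun h => (h hs).elim⟩
    · have hfin : {k | (k :: s) ∈ G}.Finite := by
        by_contra hinf
        exact hs (hG s hinf)
      obtain ⟨b, hb⟩ := hfin.bddAbove
      exact ⟨b + 1, fun _ k hk => Nat.lt_succ_of_le (hb hk)⟩
  choose F hF using h1
  refine ⟨F, fun z hz i hi => ?_⟩
  induction i, hi using Nat.le_induction with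
  | base => rw [hz.1]; exact ht
  | succ i hi ih =>
    intro hmem
    have h2 := hF _ ih _ hmem
    exact absurd (hz.2 i hi) (not_le.2 h2)

/-- every function is eventually below all but countably many elements -/
def Lus (A : Set Y) : Prop := ∀ F, {a ∈ A | ¬ ∃ m, Ob F m a}.Countable

theorem hlind {A : Set Y} (hA : Lus A) (Z : Set Y) (hZ : Z ⊆ A) (n : Y → ℕ)
    (F : Y → List ℕ → ℕ) (hF : ∀ z ∈ Z, Ob (F z) (n z) z) :
    ∃ D ⊆ Z, D.Countable ∧ ∀ z ∈ Z, ∃ d ∈ D, z ∈ box (res d (n d)) (F d) := by
  have key : ∀ s : List ℕ, ∃ D ⊆ {z ∈ Z | res z (n z) = s}, D.Countable ∧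
      {z ∈ Z | res z (n z) = s ∧ ∀ d ∈ D, z ∉ box s (F d)}.Countable := by
    intro s
    let Zs : Set Y := {z ∈ Z | res z (n z) = s}
    have h1 : ∀ t : List ℕ, ∃ d : Y, (∃ z ∈ Zs, res z t.length = t) →
        d ∈ Zs ∧ res d t.length = t := by
      intro t
      by_cases h : ∃ z ∈ Zs, res z t.length = t
      · obtain ⟨z, hz1, hz2⟩ := h
        exact ⟨z, fun _ => ⟨hz1, hz2⟩⟩
      · exact ⟨fun _ => 0, fun h' => (h h').elim⟩
    choose d hd using h1
    let D : Set Y := d '' {t | ∃ z ∈ Zs, res z t.length = t}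
    have hDZ : D ⊆ Zs := by
      rintro _ ⟨t, ht, rfl⟩
      exact (hd t ht).1
    have hDc : D.Countable := (to_countable _).image _
    refine ⟨D, hDZ, hDc, ?_⟩
    -- a function above all `F (d t)` up to finitely many nodes
    let G : List ℕ → ℕ := fun r =>
      (Finset.range (Encodable.encode r + 1)).sup fun j =>
        F (d (Denumerable.ofNat (List ℕ) j)) r
    have hG : ∀ t r : List ℕ, Encodable.encode t ≤ Encodable.encode r → F (d t) r ≤ G r := by
      intro t r h
      have h2 := Finset.le_sup (f := fun j => F (d (Denumerable.ofNat (List ℕ) j)) r)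
        (Finset.mem_range.2 (Nat.lt_succ_of_le h))
      simpa using h2
    have hex : ∀ t : List ℕ, {r : List ℕ | G r < F (d t) r}.Finite := by
      intro t
      have hfin : {r : List ℕ | Encodable.encode r < Encodable.encode t}.Finite :=
        (finite_lt_nat (Encodable.encode t)).preimage (Encodable.encode_injective.injOn)
      refine hfin.subset fun r hr => ?_
      by_contra hc
      exact absurd (hG t r (not_lt.1 hc)) (not_le.2 hr)
    let R : Set Y := {z ∈ Z | res z (n z) = s ∧ ∀ d ∈ D, z ∉ box s (F d)}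
    show R.Countable
    by_contra hR
    -- a large part with fixed stem
    have h2 : ∃ (m : ℕ) (r : List ℕ), s.length ≤ m ∧
        ¬ {z ∈ R | Ob G m z ∧ res z m = r}.Countable := by
      by_contra hc
      push Not at hc
      apply hR
      have h3 : (⋃ (m : ℕ) (r : List ℕ),
          {z ∈ R | s.length ≤ m ∧ Ob G m z ∧ res z m = r}).Countable := by
        refine countable_iUnion fun m => countable_iUnion fun r => ?_
        by_cases hm : s.length ≤ m
        · refine (hc m r hm).mono ?_
          intro z hz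
          exact ⟨hz.1, hz.2.2⟩
        · have : {z ∈ R | s.length ≤ m ∧ Ob G m z ∧ res z m = r} = ∅ := by
            ext z; simp [hm]
          rw [this]; exact countable_empty
      refine (h3.union (hA G)).mono fun z hz => ?_
      by_cases hz2 : ∃ m, Ob G m z
      · obtain ⟨m, hm⟩ := hz2
        left
        rw [mem_iUnion₂]
        exact ⟨max m s.length, res z (max m s.length), hz, le_max_right _ _,
          hm.mono (le_max_left _ _) (fun _ => le_rfl), rfl⟩
      · exact Or.inr ⟨hZ hz.1, hz2⟩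
    obtain ⟨m, r, hsm, hR'⟩ := h2
    let R' : Set Y := {z ∈ R | Ob G m z ∧ res z m = r}
    have h4 : ∃ t : List ℕ, m ≤ t.length ∧
        {k | ∃ z ∈ R', res z (t.length + 1) = k :: t}.Infinite := by
      by_contra hc
      push Not at hc
      have h5 : ∀ t : List ℕ, ∃ b : ℕ, m ≤ t.length → ∀ z ∈ R', res z t.length = t →
          z t.length < b := by
        intro t
        by_cases hm : m ≤ t.length
        · obtain ⟨b, hb⟩ := (hc t hm).bddAbove
          refine ⟨b + 1, fun _ z hz hzt => Nat.lt_succ_of_le (hb ?_)⟩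
          refine ⟨z, hz, ?_⟩
          rw [res_succ, hzt]
        · exact ⟨0, fun h => (hm h).elim⟩
      choose b hb using h5
      apply hR'
      refine (hA b).mono ?_
      intro z hz
      refine ⟨hZ hz.1.1, ?_⟩
      rintro ⟨m', hm'⟩
      have h6 := hm' (max m m') (le_max_right _ _)
      have h7 := hb (res z (max m m')) (by rw [res_length]; exact le_max_left _ _) z hz
        (by rw [res_length])
      rw [res_length] at h7
      omega
    obtain ⟨t, hmt, hinf⟩ := h4
    have hex1 : ∃ z ∈ Zs, res z t.length = t := by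
      obtain ⟨k, z, hz, hz2⟩ := hinf.nonempty
      rw [res_succ, List.cons.injEq] at hz2
      exact ⟨z, ⟨hz.1.1, hz.1.2.1⟩, hz2.2⟩
    obtain ⟨hdZ, hdt⟩ := hd t hex1
    have hfin2 : {x : ℕ | ∃ r ∈ {r : List ℕ | G r < F (d t) r}, x ∈ r}.Finite := by
      have : {x : ℕ | ∃ r ∈ {r : List ℕ | G r < F (d t) r}, x ∈ r} =
          ⋃ r ∈ {r : List ℕ | G r < F (d t) r}, {x | x ∈ r} := by
        ext x; simp
      rw [this]
      exact (hex t).biUnion fun r _ => r.finite_toSet
    obtain ⟨M, hM⟩ := hfin2.bddAbove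
    obtain ⟨k, hk, hkM⟩ := hinf.exists_gt (max M (F (d t) t))
    obtain ⟨b, hb, hbt⟩ := hk
    rw [res_succ, List.cons.injEq] at hbt
    have hbs : res b s.length = s := by
      have h8 : res b (n b) = s := hb.1.2.1
      have h9 : s.length = n b := by rw [← h8, res_length]
      rw [h9]; exact h8
    have hdn : n (d t) = s.length := by
      have h8 : res (d t) (n (d t)) = s := hdZ.2
      rw [← h8, res_length]
    apply hb.1.2.2 (d t) ⟨t, hex1, rfl⟩
    refine ⟨hbs, fun i hi => ?_⟩
    have hbd : res b t.length = res (d t) t.length := hbt.2.trans hdt.symm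
    rcases lt_trichotomy i t.length with h | h | h
    · have e1 : b i = d t i := res_eq_iff.1 hbd i h
      have e2 : res b i = res (d t) i := res_eq_mono hbd h.le
      rw [e1, e2]
      exact hF (d t) hdZ.1 i (by rw [hdn]; exact hi)
    · rw [h, hbt.2, hbt.1]
      exact ((le_max_right _ _).trans hkM.le)
    · have h9 : res b i ∉ {r : List ℕ | G r < F (d t) r} := by
        intro hmem
        have h10 : k ≤ M := by
          apply hM
          refine ⟨res b i, hmem, ?_⟩
          rw [← hbt.1]
          exact mem_res h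
        exact absurd (lt_of_le_of_lt (le_max_left _ _) hkM) (not_lt.2 h10)
      exact (not_lt.1 h9).trans (hb.2.1 i (hmt.trans h.le))
  choose D hD1 hD2 hD3 using key
  refine ⟨⋃ s, (D s ∪ {z ∈ Z | res z (n z) = s ∧ ∀ d ∈ D s, z ∉ box s (F d)}), ?_, ?_, ?_⟩
  · refine iUnion_subset fun s => union_subset ((hD1 s).trans fun z hz => hz.1) fun z hz => hz.1
  · exact countable_iUnion fun s => (hD2 s).union (hD3 s)
  · intro z hz
    by_cases h : ∃ d ∈ D (res z (n z)), z ∈ box (res z (n z)) (F d)
    · obtain ⟨d, hd, hzd⟩ := h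
      refine ⟨d, mem_iUnion.2 ⟨_, Or.inl hd⟩, ?_⟩
      rw [(hD1 _ hd).2]
      exact hzd
    · push Not at h
      exact ⟨z, mem_iUnion.2 ⟨res z (n z), Or.inr ⟨hz, rfl, h⟩⟩, mem_box_self (hF z hz)⟩

end Pool.Agent.helper67.Lav
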