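import Pool.Agent.helper67.Lav.Step

/-!
# Total paracompactness, the Lindelöf property and failure of the Menger property
-/

set_option autoImplicit false
open Set Filter Topology

namespace Pool.Agent.helper67.Lav

/-- the union of the sets coded along the branch `h` -/
def UB (c : List ℕ → Code) (h : Y) : Set Y := {z | ∃ n, z ∈ KS (c (res h (n + 1)))}

/-- `A` is generic -/
def Gen (A : Set Y) : Prop := ∀ c : List ℕ → Code, ∃ E ⊆ A, E.Countable ∧
  ((∃ h, Dn (UB c h) ∧ E ⊆ UB c h) → ∃ h, A ⊆ UB c h)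

variable {A : Set Y}

theorem tot_para (hA : Lus A) (hD : Dn A) (hG : Gen A) {B : Set (Set A)}
    (hB : TopologicalSpace.IsTopologicalBasis B) :
    ∃ C : Set (Set A), C ⊆ B ∧ LocallyFinite (fun s : C => (s : Set A)) ∧ ⋃₀ C = univ := by
  have h1 : ∀ N : Set Y, ∃ μ : ℕ → Set (Set A) × Code, IsClosed {x : A | (x : Y) ∈ N} →
      (∀ k, Good B N (μ k)) ∧ (∀ t, ∃ k, PD t (N ∪ KS (μ k).2)) ∧
      (∀ x : A, ∃ k, (x : Y) ∈ N ∪ KS (μ k).2) := by
    intro N
    by_cases hN : IsClosed {x : A | (x : Y) ∈ N}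
    · obtain ⟨μ, hμ⟩ := exists_steps hA hD hB N hN
      exact ⟨μ, fun _ => hμ⟩
    · exact ⟨fun _ => (∅, fun _ => none), fun h => (hN h).elim⟩
  choose μ hμ using h1
  -- positions
  let U : List ℕ → Set Y := fun σ => List.rec ∅ (fun k _ V => V ∪ KS (μ V k).2) σ
  have hU0 : U [] = ∅ := rfl
  have hUs : ∀ k σ, U (k :: σ) = U σ ∪ KS (μ (U σ) k).2 := fun k σ => rfl
  have hUc : ∀ σ, IsClosed {x : A | (x : Y) ∈ U σ} := by
    intro σ
    induction σ with
    | nil => rw [hU0]; simp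
    | cons k σ ih =>
      rw [hUs]
      exact ih.union ((hμ (U σ) ih).1 k).closed
  let c : List ℕ → Code := fun σ => match σ with
    | [] => fun _ => none
    | k :: σ => (μ (U σ) k).2
  have hc : ∀ k σ, c (k :: σ) = (μ (U σ) k).2 := fun k σ => rfl
  have hUB1 : ∀ (h : Y) (n : ℕ), U (res h n) ⊆ UB c h := by
    intro h n
    induction n with
    | zero => exact empty_subset _
    | succ n ih =>
      rw [res_succ, hUs]
      refine union_subset ih fun z hz => ⟨n, ?_⟩
      rw [res_succ, hc]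
      exact hz
  have hUmono : ∀ (h : Y) (n m : ℕ), n ≤ m → U (res h n) ⊆ U (res h m) := by
    intro h n m hnm
    induction m, hnm using Nat.le_induction with
    | base => exact Subset.rfl
    | succ m _ ih =>
      rw [res_succ, hUs]
      exact ih.trans subset_union_left
  obtain ⟨E, hEA, hEc, hE⟩ := hG c
  -- a branch fulfilling countably many tasks
  have hbranch : ∃ h, Dn (UB c h) ∧ E ⊆ UB c h := by
    have : Countable E := hEc.to_subtype
    obtain ⟨e, he⟩ := exists_surjective_nat (List ℕ ⊕ E)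
    let done : List ℕ ⊕ E → Set Y → Prop := fun τ V => match τ with
      | Sum.inl t => PD t V
      | Sum.inr x => (x : Y) ∈ V
    have hdone : ∀ τ V V', done τ V → V ⊆ V' → done τ V' := by
      rintro (t | x) V V' h hV
      · exact PD.mono h hV
      · exact hV h
    have h2 : ∀ (τ : List ℕ ⊕ E) (σ : List ℕ), ∃ k, done τ (U (k :: σ)) := by
      rintro (t | x) σ
      · exact (hμ (U σ) (hUc σ)).2.1 t
      · exact (hμ (U σ) (hUc σ)).2.2 ⟨x, hEA x.2⟩
    choose pick hpick using h2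
    let s : ℕ → List ℕ := fun n => Nat.rec [] (fun n σ => pick (e n) σ :: σ) n
    have hs0 : s 0 = [] := rfl
    have hss : ∀ n, s (n + 1) = pick (e n) (s n) :: s n := fun n => rfl
    let h : Y := fun n => pick (e n) (s n)
    have hres : ∀ n, res h n = s n := by
      intro n
      induction n with
      | zero => rfl
      | succ n ih => rw [res_succ, ih, hss]
    have hall : ∀ τ, done τ (UB c h) := by
      intro τ
      obtain ⟨n, rfl⟩ := he τ
      refine hdone _ (U (s (n + 1))) _ ?_ (by rw [← hres (n + 1)]; exact hUB1 h (n + 1))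
      rw [hss]
      exact hpick _ _
    exact ⟨h, fun t => hall (Sum.inl t), fun x hx => hall (Sum.inr ⟨x, hx⟩)⟩
  obtain ⟨h, hAh⟩ := hE hbranch
  let C : ℕ → Set (Set A) := fun n => (μ (U (res h n)) (h n)).1
  have hgood : ∀ n, Good B (U (res h n)) (μ (U (res h n)) (h n)) := fun n =>
    (hμ _ (hUc _)).1 _
  have hKU : ∀ n, KS (c (res h (n + 1))) = KS (μ (U (res h n)) (h n)).2 := by
    intro n
    rw [res_succ, hc]
  refine ⟨⋃ n, C n, iUnion_subset fun n => (hgood n).sub, ?_, ?_⟩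
  · intro x
    obtain ⟨n, hn⟩ := hAh x.2
    choose V hV hVfin using fun l => (hgood l).fin x
    refine ⟨{x' : A | (x' : Y) ∈ KS (c (res h (n + 1)))} ∩ ⋂ l ∈ Finset.range (n + 1), V l,
      inter_mem ?_ ?_, ?_⟩
    · exact ((isOpen_KS _).preimage continuous_subtype_val).mem_nhds hn
    · exact (Filter.biInter_finset_mem _).2 fun k _ => hV k
    · have hsub : (fun s : (⋃ n, C n : Set (Set A)) => (s : Set A)) '' {s : (⋃ n, C n : Set (Set A)) |
          ((s : Set A) ∩ ({x' : A | (x' : Y) ∈ KS (c (res h (n + 1)))} ∩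
            ⋂ l ∈ Finset.range (n + 1), V l)).Nonempty} ⊆
          ⋃ l ∈ Finset.range (n + 1), (fun s : C l => (s : Set A)) ''
            {s : C l | ((s : Set A) ∩ V l).Nonempty} := by
        rintro _ ⟨⟨s, hs⟩, ⟨x', hx', hx1, hx2⟩, rfl⟩
        obtain ⟨l, hl⟩ := mem_iUnion.1 hs
        have hln : l ∈ Finset.range (n + 1) := by
          rw [Finset.mem_range]
          by_contra hc
          push Not at hc
          apply (hgood l).disj s hl x' hx'
          apply hUmono h (n + 1) l hc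
          rw [res_succ, hUs]
          right
          rw [← hKU]
          exact hx1
        rw [mem_iUnion₂]
        exact ⟨l, hln, ⟨s, hl⟩, ⟨x', hx', mem_iInter₂.1 hx2 l hln⟩, rfl⟩
      have hfin : (⋃ l ∈ Finset.range (n + 1), (fun s : C l => (s : Set A)) ''
            {s : C l | ((s : Set A) ∩ V l).Nonempty}).Finite :=
        Set.Finite.biUnion (Finset.finite_toSet _) fun l _ => (hVfin l).image _
      exact Set.Finite.of_finite_image (hfin.subset hsub) Subtype.val_injective.injOn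
  · rw [eq_univ_iff_forall]
    intro x
    obtain ⟨n, hn⟩ := hAh x.2
    rw [hKU] at hn
    obtain ⟨s, hs, hxs⟩ := (hgood n).cover x hn
    exact ⟨s, mem_iUnion.2 ⟨n, hs⟩, hxs⟩

theorem her_lind (hA : Lus A) : HereditarilyLindelofSpace A := by
  refine ⟨fun Z _ => isLindelof_of_countable_subcover fun {ι} U hU hZ => ?_⟩
  have h1 : ∀ y : Y, ∃ (i : Option ι) (n : ℕ) (F : List ℕ → ℕ),
      (∃ h : y ∈ A, (⟨y, h⟩ : A) ∈ Z) → ∃ j, i = some j ∧ Ob F n y ∧
        ∀ x' : A, (x' : Y) ∈ box (res y n) F → x' ∈ U j := by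
    intro y
    by_cases hy : ∃ h : y ∈ A, (⟨y, h⟩ : A) ∈ Z
    · obtain ⟨h, hyZ⟩ := hy
      obtain ⟨j, hj⟩ := mem_iUnion.1 (hZ hyZ)
      obtain ⟨O, hO, hOU⟩ := isOpen_induced_iff.1 (hU j)
      have hyO : y ∈ O := by
        have : (⟨y, h⟩ : A) ∈ (Subtype.val ⁻¹' O : Set A) := by rw [hOU]; exact hj
        exact this
      obtain ⟨n, F, h2, h3⟩ := isOpen_iff.1 hO y hyO
      refine ⟨some j, n, F, fun _ => ⟨j, rfl, h2, fun x' hx' => ?_⟩⟩
      rw [← hOU]
      exact h3 hx'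
    · exact ⟨none, 0, fun _ => 0, fun h => (hy h).elim⟩
  choose i n F h1 using h1
  obtain ⟨D, hDZ, hDc, hDcov⟩ := hlind hA (Subtype.val '' Z)
    (by rintro _ ⟨x, -, rfl⟩; exact x.2) n F (by
      rintro _ ⟨x, hx, rfl⟩
      obtain ⟨j, -, h2, -⟩ := h1 x ⟨x.2, hx⟩
      exact h2)
  refine ⟨{j | ∃ d ∈ D, i d = some j}, ?_, ?_⟩
  · have : (some '' {j | ∃ d ∈ D, i d = some j}).Countable := by
      refine (hDc.image i).mono ?_
      rintro _ ⟨j, ⟨d, hd, hj⟩, rfl⟩
      exact ⟨d, hd, hj⟩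
    exact Set.countable_of_injective_of_countable_image (Option.some_injective ι).injOn this
  · intro x hx
    obtain ⟨d, hd, hxd⟩ := hDcov x ⟨x, hx, rfl⟩
    obtain ⟨x0, hx0, hx0d⟩ := hDZ hd
    obtain ⟨j, hj, -, h3⟩ := h1 d ⟨by rw [← hx0d]; exact x0.2, by
      have : (⟨d, by rw [← hx0d]; exact x0.2⟩ : A) = x0 := Subtype.ext hx0d.symm
      rw [this]; exact hx0⟩
    exact mem_iUnion₂.2 ⟨j, ⟨d, hd, hj⟩, h3 x hxd⟩

theorem not_menger (hD : Dn A) :
    ¬ ∀ U : ℕ → Set (Set A), (∀ n, ∀ s ∈ U n, IsOpen s) → (∀ n, ⋃₀ U n = univ) →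
        ∃ C : ℕ → Set (Set A), (∀ n, C n ⊆ U n ∧ (C n).Finite) ∧ (⋃ n, ⋃₀ C n) = univ := by
  intro h
  obtain ⟨C, hC, hcov⟩ := h (fun n => range fun k => {x : A | (x : Y) n ≤ k}) (by
      rintro n _ ⟨k, rfl⟩
      exact (isOpen_le n k).preimage continuous_subtype_val) (by
      intro n
      rw [eq_univ_iff_forall]
      intro x
      exact ⟨_, ⟨(x : Y) n, rfl⟩, le_refl ((x : Y) n)⟩)
  have h1 : ∀ n, ∃ m : ℕ, ∀ s ∈ C n, ∀ x ∈ s, (x : Y) n ≤ m := by
    intro n
    have h2 : ∀ s ∈ C n, ∃ m : ℕ, ∀ x ∈ s, (x : Y) n ≤ m := by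
      intro s hs
      obtain ⟨k, rfl⟩ := (hC n).1 hs
      exact ⟨k, fun x hx => hx⟩
    have h3 := (hC n).2
    revert h2
    generalize C n = S at h3
    intro h2
    induction S, h3 using Set.Finite.induction_on with
    | empty => exact ⟨0, by simp⟩
    | @insert a S _ _ ih =>
      obtain ⟨m1, hm1⟩ := h2 a (mem_insert _ _)
      obtain ⟨m2, hm2⟩ := ih fun s hs => h2 s (mem_insert_of_mem _ hs)
      refine ⟨max m1 m2, ?_⟩
      rintro s (rfl | hs) x hx
      · exact (hm1 x hx).trans (le_max_left _ _)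
      · exact (hm2 s hs x hx).trans (le_max_right _ _)
  choose f hf using h1
  obtain ⟨z, hz, hzA⟩ := hD [] (fun r => f r.length + 1)
  have h4 : (⟨z, hzA⟩ : A) ∈ ⋃ n, ⋃₀ C n := by rw [hcov]; exact mem_univ _
  obtain ⟨n, s, hs, hzs⟩ := mem_iUnion.1 h4
  have h5 : z n ≤ f n := hf n s hs _ hzs
  have h6 : f (res z n).length + 1 ≤ z n := hz.2 n (Nat.zero_le _)
  rw [res_length] at h6
  omega

end Pool.Agent.helper67.Lav
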