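import Pool.Agent.helper67.Lav.Gen

/-!
# Locally finite steps

For a base `B` of a subspace `A` we find countable locally finite subfamilies of `B` whose union
contains a union of boxes which meets every box with a prescribed stem.
-/

set_option autoImplicit false
open Set Filter Topology

namespace Pool.Agent.helper67.Lav

/-- codes of countable unions of boxes -/
abbrev Code : Type := ℕ → Option (List ℕ × (List ℕ → ℕ))

/-- the set coded by `c` -/
def KS (c : Code) : Set Y := {z | ∃ i q, c i = some q ∧ z ∈ box q.1 q.2}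

theorem isOpen_KS (c : Code) : IsOpen (KS c) := by
  have : KS c = ⋃ (i : ℕ) (q : List ℕ × (List ℕ → ℕ)) (_ : c i = some q), box q.1 q.2 := by
    ext z; simp [KS]
  rw [this]
  exact isOpen_iUnion fun i => isOpen_iUnion fun q => isOpen_iUnion fun _ => isOpen_box _ _

theorem KS_none : KS (fun _ => none) = ∅ := by
  ext z; simp [KS]

theorem exists_code (Q : Set (List ℕ × (List ℕ → ℕ))) (hQ : Q.Countable) :
    ∃ c : Code, KS c = {z | ∃ q ∈ Q, z ∈ box q.1 q.2} := by
  rcases Q.eq_empty_or_nonempty with h | h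
  · refine ⟨fun _ => none, ?_⟩
    rw [KS_none, h]
    ext z; simp
  · obtain ⟨f, hf⟩ := hQ.exists_eq_range h
    refine ⟨fun i => some (f i), ?_⟩
    ext z
    constructor
    · rintro ⟨i, q, h1, h2⟩
      rw [Option.some.injEq] at h1
      exact ⟨q, by rw [hf, ← h1]; exact mem_range_self i, h2⟩
    · rintro ⟨q, h1, h2⟩
      rw [hf] at h1
      obtain ⟨i, rfl⟩ := h1
      exact ⟨i, f i, rfl, h2⟩

variable {A : Set Y}

/-- a legal step for the base `B` after the set `N` -/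
structure Good (B : Set (Set A)) (N : Set Y) (μ : Set (Set A) × Code) : Prop where
  sub : μ.1 ⊆ B
  fin : LocallyFinite (fun s : μ.1 => (s : Set A))
  disj : ∀ s ∈ μ.1, ∀ x ∈ s, (x : Y) ∉ N
  closed : IsClosed {x : A | (x : Y) ∈ KS μ.2}
  cover : ∀ x : A, (x : Y) ∈ KS μ.2 → ∃ s ∈ μ.1, x ∈ s

theorem good_trivial (B : Set (Set A)) (N : Set Y) : Good B N (∅, fun _ => none) where
  sub := empty_subset _
  fin := by
    intro x
    exact ⟨univ, univ_mem, (Set.toFinite _)⟩
  disj := by simp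
  closed := by simp [KS_none]
  cover := by simp [KS_none]

theorem isOpen_above (z : Y) : IsOpen {z' : Y | ∀ i, z i ≤ z' i} := by
  have : {z' : Y | ∀ i, z i ≤ z' i} = box [] (fun r => z r.length) := by
    ext z'
    constructor
    · intro h
      refine ⟨rfl, fun i _ => ?_⟩
      show z (res z' i).length ≤ z' i
      rw [res_length]
      exact h i
    · intro h i
      have h2 : z (res z' i).length ≤ z' i := h.2 i (Nat.zero_le _)
      rwa [res_length] at h2
  rw [this]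
  exact isOpen_box _ _

/-- base elements around a point inside a given open set -/
theorem base_at {B : Set (Set A)} (hB : TopologicalSpace.IsTopologicalBasis B) (x : A) {O : Set Y}
    (hO : IsOpen O) (hx : (x : Y) ∈ O) (m : ℕ) :
    ∃ b ∈ B, (∀ x' ∈ b, (x' : Y) ∈ O) ∧ ∃ n F, m ≤ n ∧ Ob F n (x : Y) ∧
      ∀ x' : A, (x' : Y) ∈ box (res (x : Y) n) F → x' ∈ b := by
  have h1 : IsOpen {x' : A | (x' : Y) ∈ O} := hO.preimage continuous_subtype_val
  obtain ⟨b, hb, hxb, hbO⟩ := hB.exists_subset_of_mem_open (show x ∈ {x' : A | (x' : Y) ∈ O} from hx) h1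
  refine ⟨b, hb, fun x' hx' => hbO hx', ?_⟩
  have h2 : IsOpen b := hB.isOpen hb
  rw [isOpen_induced_iff] at h2
  obtain ⟨O', hO', hbO'⟩ := h2
  have h3 : (x : Y) ∈ O' := by
    have : x ∈ (Subtype.val ⁻¹' O' : Set A) := by rw [hbO']; exact hxb
    exact this
  obtain ⟨n, F, h4, h5⟩ := isOpen_iff.1 hO' _ h3
  refine ⟨max n m, F, le_max_right _ _, h4.mono (le_max_left _ _) (fun _ => le_rfl), ?_⟩
  intro x' hx'
  have h6 : (x' : Y) ∈ O' := h5 (box_sub (le_max_left _ _) (fun _ => le_rfl) h4 hx')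
  rw [← hbO']
  exact h6

theorem locallyFinite_image {P : Set A} {b : A → Set A}
    (h : LocallyFinite (fun z : P => b z)) : LocallyFinite (fun s : b '' P => (s : Set A)) := by
  intro x
  obtain ⟨V, hV, hfin⟩ := h x
  refine ⟨V, hV, ?_⟩
  have : {s : b '' P | ((s : Set A) ∩ V).Nonempty} ⊆
      (fun z : P => (⟨b z, mem_image_of_mem b z.2⟩ : b '' P)) ''
        {z : P | (b z ∩ V).Nonempty} := by
    rintro ⟨_, z, hz, rfl⟩ hs
    exact ⟨⟨z, hz⟩, hs, rfl⟩
  exact (hfin.image _).subset this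

/-- the key step: a locally finite family reaching every box with stem `t0` -/
theorem good_dense (hD : Dn A) {B : Set (Set A)} (hB : TopologicalSpace.IsTopologicalBasis B)
    (N : Set Y) (t0 : List ℕ) (F0 : List ℕ → ℕ) (hN : ∀ z ∈ box t0 F0, z ∉ N) :
    ∃ μ, Good B N μ ∧ PD t0 (KS μ.2) := by
  have h1 : ∀ x : A, ∃ (b : Set A) (n : ℕ) (F : List ℕ → ℕ), (x : Y) ∈ box t0 F0 →
      b ∈ B ∧ (∀ x' ∈ b, (x' : Y) ∈ box t0 F0 ∧ ∀ i, (x : Y) i ≤ (x' : Y) i) ∧ t0.length ≤ n ∧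
        Ob F n (x : Y) ∧ ∀ x' : A, (x' : Y) ∈ box (res (x : Y) n) F → x' ∈ b := by
    intro x
    by_cases hx : (x : Y) ∈ box t0 F0
    · obtain ⟨b, hb, hb1, n, F, hn, hF, hb2⟩ := base_at hB x
        ((isOpen_box t0 F0).inter (isOpen_above (x : Y))) ⟨hx, fun i => le_rfl⟩ t0.length
      exact ⟨b, n, F, fun _ => ⟨hb, fun x' hx' => hb1 x' hx', hn, hF, hb2⟩⟩
    · exact ⟨∅, 0, fun _ => 0, fun h => (hx h).elim⟩
  choose b n F hb using h1
  let κ : A → Set Y := fun x => box (res (x : Y) (n x)) (F x)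
  let G : Set (List ℕ) := {s | ∃ P : Set A, P.Countable ∧
    (∀ z ∈ P, (z : Y) ∈ box t0 F0 ∧ res (z : Y) s.length = s) ∧
    LocallyFinite (fun z : P => b z) ∧ PD s {y | ∃ z ∈ P, y ∈ κ z}}
  have hG : ∀ t, {k | (k :: t) ∈ G}.Infinite → t ∈ G := by
    intro t hinf
    have h2 : ∀ k, ∃ P : Set A, (k :: t) ∈ G → (P.Countable ∧
        (∀ z ∈ P, (z : Y) ∈ box t0 F0 ∧ res (z : Y) (k :: t).length = k :: t) ∧
        LocallyFinite (fun z : P => b z) ∧ PD (k :: t) {y | ∃ z ∈ P, y ∈ κ z}) := by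
      intro k
      by_cases hk : (k :: t) ∈ G
      · obtain ⟨P, hP⟩ := hk
        exact ⟨P, fun _ => hP⟩
      · exact ⟨∅, fun h => (hk h).elim⟩
    choose P hP using h2
    have hlast : ∀ k, (k :: t) ∈ G → ∀ z ∈ P k, res (z : Y) t.length = t ∧
        (z : Y) t.length = k := by
      intro k hk z hz
      have := ((hP k hk).2.1 z hz).2
      rw [List.length_cons, res_succ, List.cons.injEq] at this
      exact ⟨this.2, this.1⟩
    refine ⟨{z | ∃ k, (k :: t) ∈ G ∧ z ∈ P k}, ?_, ?_, ?_, ?_⟩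
    · have : {z | ∃ k, (k :: t) ∈ G ∧ z ∈ P k} = ⋃ (k : ℕ) (_ : (k :: t) ∈ G), P k := by
        ext z; simp
      rw [this]
      exact countable_iUnion fun k => countable_iUnion fun hk => (hP k hk).1
    · rintro z ⟨k, hk, hz⟩
      exact ⟨((hP k hk).2.1 z hz).1, (hlast k hk z hz).1⟩
    · intro x
      -- neighbourhoods for the first values
      have h3 : ∀ k, ∃ V ∈ 𝓝 x, (k :: t) ∈ G →
          {z : P k | (b z ∩ V).Nonempty}.Finite := by
        intro k
        by_cases hk : (k :: t) ∈ G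
        · obtain ⟨V, hV, hfin⟩ := (hP k hk).2.2.1 x
          exact ⟨V, hV, fun _ => hfin⟩
        · exact ⟨univ, univ_mem, fun h => (hk h).elim⟩
      choose V hV hfin using h3
      let K := (x : Y) t.length
      refine ⟨{x' : A | (x' : Y) t.length = K} ∩ ⋂ k ∈ Finset.range (K + 1), V k, ?_, ?_⟩
      · refine inter_mem ?_ ?_
        · exact ((isOpen_val t.length K).preimage continuous_subtype_val).mem_nhds rfl
        · exact (Filter.biInter_finset_mem _).2 fun k _ => hV k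
      · have hsub : {z : {z | ∃ k, (k :: t) ∈ G ∧ z ∈ P k} | (b z ∩
            ({x' : A | (x' : Y) t.length = K} ∩ ⋂ k ∈ Finset.range (K + 1), V k)).Nonempty} ⊆
            {z | ∃ k ∈ Finset.range (K + 1), (k :: t) ∈ G ∧
              (z : A) ∈ (fun w : P k => (w : A)) '' {z : P k | (b z ∩ V k).Nonempty}} := by
          rintro ⟨z, k, hk, hz⟩ ⟨x', hx', hx1, hx2⟩
          have h4 := (hlast k hk z hz).2
          have h5 := ((hb z ((hP k hk).2.1 z hz).1).2.1 x' hx').2 t.length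
          have h6 : k ∈ Finset.range (K + 1) := by
            rw [Finset.mem_range]
            have : (x' : Y) t.length = K := hx1
            omega
          refine ⟨k, h6, hk, ⟨z, hz⟩, ⟨x', hx', ?_⟩, rfl⟩
          exact mem_iInter₂.1 hx2 k h6
        refine Set.Finite.subset ?_ hsub
        have : {z : {z | ∃ k, (k :: t) ∈ G ∧ z ∈ P k} | ∃ k ∈ Finset.range (K + 1), (k :: t) ∈ G ∧
              (z : A) ∈ (fun w : P k => (w : A)) '' {z : P k | (b z ∩ V k).Nonempty}} ⊆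
            Subtype.val ⁻¹' ⋃ k ∈ Finset.range (K + 1), ⋃ (_ : (k :: t) ∈ G),
              (fun w : P k => (w : A)) '' {z : P k | (b z ∩ V k).Nonempty} := by
          rintro z ⟨k, h1, h2, h3⟩
          rw [mem_preimage, mem_iUnion₂]
          exact ⟨k, h1, mem_iUnion.2 ⟨h2, h3⟩⟩
        refine Set.Finite.subset ?_ this
        refine Set.Finite.preimage Subtype.val_injective.injOn ?_
        refine Set.Finite.biUnion (Finset.finite_toSet _) fun k _ => ?_
        refine Set.finite_iUnion fun hk => (hfin k hk).image _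
    · intro F'
      obtain ⟨k, hk, hkF⟩ := hinf.exists_gt (F' t)
      obtain ⟨y, hy, z, hz, hyz⟩ := (hP k hk).2.2.2 F'
      exact ⟨y, box_cons hkF.le hy, z, ⟨k, hk, hz⟩, hyz⟩
  have ht0 : t0 ∈ G := by
    by_contra ht
    obtain ⟨F', hF'⟩ := rank_arg G hG t0 ht
    obtain ⟨z, hz, hzA⟩ := hD t0 (fun s => max (F0 s) (F' s))
    have hz0 : z ∈ box t0 F0 := box_mono (fun s => le_max_left _ _) hz
    have hz1 : z ∈ box t0 F' := box_mono (fun s => le_max_right _ _) hz
    obtain ⟨h2, h3, h4, h5, h6⟩ := hb ⟨z, hzA⟩ hz0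
    apply hF' z hz1 (n ⟨z, hzA⟩) h4
    refine ⟨{⟨z, hzA⟩}, countable_singleton _, ?_, ?_, ?_⟩
    · rintro _ rfl
      exact ⟨hz0, by rw [res_length]⟩
    · intro x
      exact ⟨univ, univ_mem, Set.toFinite _⟩
    · intro F''
      obtain ⟨y, hy1, hy2⟩ := box_inter_nonempty (res z (n ⟨z, hzA⟩)) F'' (F ⟨z, hzA⟩)
      exact ⟨y, hy1, ⟨z, hzA⟩, rfl, hy2⟩
  obtain ⟨P, hPc, hP1, hP2, hP3⟩ := ht0
  obtain ⟨c, hc⟩ := exists_code ((fun x : A => (res (x : Y) (n x), F x)) '' P) (hPc.image _)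
  have hc' : KS c = {y | ∃ z ∈ P, y ∈ κ z} := by
    rw [hc]
    ext y
    simp [κ]
  refine ⟨(b '' P, c), ⟨?_, locallyFinite_image hP2, ?_, ?_, ?_⟩, ?_⟩
  · rintro _ ⟨z, hz, rfl⟩
    exact (hb z (hP1 z hz).1).1
  · rintro _ ⟨z, hz, rfl⟩ x hx
    exact hN x ((hb z (hP1 z hz).1).2.1 x hx).1
  · show IsClosed {x : A | (x : Y) ∈ KS c}
    have : {x : A | (x : Y) ∈ KS c} = ⋃ z : P, {x : A | (x : Y) ∈ κ z} := by
      rw [hc']
      ext x
      simp
    rw [this]
    refine LocallyFinite.isClosed_iUnion (hP2.subset fun z => ?_) fun z => ?_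
    · intro x hx
      exact (hb z (hP1 z z.2).1).2.2.2.2 x hx
    · exact (isClosed_box _ _).preimage continuous_subtype_val
  · intro x hx
    have hx' : (x : Y) ∈ KS c := hx
    rw [hc'] at hx'
    obtain ⟨z, hz, hxz⟩ := hx'
    exact ⟨b z, mem_image_of_mem b hz, (hb z (hP1 z hz).1).2.2.2.2 x hxz⟩
  · show PD t0 (KS c)
    rw [hc']
    exact hP3

/-- the possible steps after `N` -/
theorem exists_steps (hA : Lus A) (hD : Dn A) {B : Set (Set A)}
    (hB : TopologicalSpace.IsTopologicalBasis B) (N : Set Y)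
    (hN : IsClosed {x : A | (x : Y) ∈ N}) :
    ∃ μ : ℕ → Set (Set A) × Code, (∀ k, Good B N (μ k)) ∧
      (∀ t, ∃ k, PD t (N ∪ KS (μ k).2)) ∧ (∀ x : A, ∃ k, (x : Y) ∈ N ∪ KS (μ k).2) := by
  -- steps for stems
  have h1 : ∀ t, ∃ μ, Good B N μ ∧ PD t (N ∪ KS μ.2) := by
    intro t
    by_cases ht : PD t N
    · exact ⟨_, good_trivial B N, ht.mono subset_union_left⟩
    · unfold PD at ht
      push Not at ht
      obtain ⟨F0, hF0⟩ := ht
      obtain ⟨μ, h2, h3⟩ := good_dense hD hB N t F0 (by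
        intro z hz hzN
        have : z ∈ box t F0 ∩ N := ⟨hz, hzN⟩
        rw [hF0] at this
        exact this)
      exact ⟨μ, h2, h3.mono subset_union_right⟩
  choose μ1 hμ1 hμ1' using h1
  -- steps for points
  have h2 : ∀ y : Y, ∃ (μ : Set (Set A) × Code) (n : ℕ) (F : List ℕ → ℕ), y ∈ A → y ∉ N →
      Good B N μ ∧ Ob F n y ∧ KS μ.2 = box (res y n) F := by
    intro y
    by_cases hy : y ∈ A ∧ y ∉ N
    · obtain ⟨O', hO', hNO'⟩ := isOpen_induced_iff.1 hN.isOpen_compl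
      have hyO : y ∈ O' := by
        have : (⟨y, hy.1⟩ : A) ∈ (Subtype.val ⁻¹' O' : Set A) := by
          rw [hNO']; exact hy.2
        exact this
      obtain ⟨b, hb, hb1, n, F, -, hF, hb2⟩ := base_at hB ⟨y, hy.1⟩ hO' hyO 0
      obtain ⟨c, hc⟩ := exists_code {(res y n, F)} (countable_singleton _)
      have hc' : KS c = box (res y n) F := by rw [hc]; ext z; simp
      refine ⟨({b}, c), n, F, fun _ _ => ⟨⟨?_, ?_, ?_, ?_, ?_⟩, hF, hc'⟩⟩
      · rintro _ rfl; exact hb
      · intro x; exact ⟨univ, univ_mem, Set.toFinite _⟩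
      · rintro _ rfl x hx hxN
        have h3 : x ∈ (Subtype.val ⁻¹' O' : Set A) := hb1 x hx
        rw [hNO'] at h3
        exact h3 hxN
      · show IsClosed {x : A | (x : Y) ∈ KS c}
        rw [hc']
        exact (isClosed_box _ _).preimage continuous_subtype_val
      · intro x hx
        have hx' : (x : Y) ∈ KS c := hx
        rw [hc'] at hx'
        exact ⟨b, rfl, hb2 x hx'⟩
    · exact ⟨(∅, fun _ => none), 0, fun _ => 0, fun h h' => (hy ⟨h, h'⟩).elim⟩
  choose μ2 n F h2 using h2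
  obtain ⟨D, hDZ, hDc, hDcov⟩ := hlind hA {y | y ∈ A ∧ y ∉ N} (fun y hy => hy.1) n F
    (fun y hy => (h2 y hy.1 hy.2).2.1)
  let S : Set (Set (Set A) × Code) := {(∅, fun _ => none)} ∪ (range μ1 ∪ μ2 '' D)
  have hSc : S.Countable := (countable_singleton _).union
    ((countable_range _).union (hDc.image _))
  have hS : ∀ μ ∈ S, Good B N μ := by
    rintro μ (rfl | ⟨t, rfl⟩ | ⟨y, hy, rfl⟩)
    · exact good_trivial B N
    · exact hμ1 t
    · exact (h2 y (hDZ hy).1 (hDZ hy).2).1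
  obtain ⟨f, hf⟩ := hSc.exists_eq_range ⟨_, Or.inl rfl⟩
  have hfS : ∀ k, f k ∈ S := fun k => by rw [hf]; exact mem_range_self k
  refine ⟨f, fun k => hS _ (hfS k), fun t => ?_, fun x => ?_⟩
  · have : μ1 t ∈ S := Or.inr (Or.inl ⟨t, rfl⟩)
    rw [hf] at this
    obtain ⟨k, hk⟩ := this
    exact ⟨k, by rw [hk]; exact hμ1' t⟩
  · by_cases hx : (x : Y) ∈ N
    · exact ⟨0, Or.inl hx⟩
    · obtain ⟨d, hd, hxd⟩ := hDcov x ⟨x.2, hx⟩
      have : μ2 d ∈ S := Or.inr (Or.inr ⟨d, hd, rfl⟩)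
      rw [hf] at this
      obtain ⟨k, hk⟩ := this
      refine ⟨k, Or.inr ?_⟩
      rw [hk, (h2 d (hDZ hd).1 (hDZ hd).2).2.2]
      exact hxd

end Pool.Agent.helper67.Lav
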